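import Mathlib
import Pool.Agent.H670GS.Final

set_option autoImplicit false

/-! # Matrix Spencer for block diagonal matrices

Matrix Spencer holds for block diagonal matrices, with blocks of arbitrary different sizes, when the
sum of the squares of the sizes is at most `n`; the bound is better for fewer than `n` matrices. -/

open scoped Matrix.Norms.L2Operator

namespace Pool.Agent.Results.MP_e2be92_co.BlockDiagonal

/-- `d i` is the size of the block `i`, `A g i` the block `i` of the matrix `g`. -/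
theorem result : ∃ C : ℝ, 0 < C ∧ ∀ (ι : Type) [Fintype ι] (d : ι → ℕ) (n : ℕ),
    (∀ i, 0 < d i) → ∑ i, d i ^ 2 ≤ n →
    ∀ (J : Type) [Fintype J] (A : J → (i : ι) → Matrix (Fin (d i)) (Fin (d i)) ℂ),
      Fintype.card J ≤ n → (∀ g i, ‖A g i‖ ≤ 1) →
      ∃ ε : J → ℝ, (∀ g, ε g = 1 ∨ ε g = -1) ∧
        ∀ i, ‖∑ g, ((ε g : ℝ) : ℂ) • A g i‖ ≤
          C * (n : ℝ) ^ (3 / 8 : ℝ) * (Fintype.card J : ℝ) ^ (1 / 8 : ℝ) := by
  obtain ⟨⟨C, hC, hM⟩, -⟩ := Pool.Agent.H172R2.GS.gs_main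
  refine ⟨C, hC, ?_⟩
  intro ι _ d n hd hn J _ A hJ hA
  classical
  exact hM ι d n hd hn J A hJ hA

end Pool.Agent.Results.MP_e2be92_co.BlockDiagonal
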